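import Pool.Agent.Lib.MP_67573e_al.Area

set_option autoImplicit false

namespace Pool.Agent.Results.MP_67573e_al.DoublyExp

/-- connected graphs in which any three vertices have exactly one median: the one-skeleta of
CAT(0) cube complexes -/
def IsMedianGraph {V : Type} (Γ : SimpleGraph V) : Prop :=
  Γ.Connected ∧ ∀ x y z : V, ∃! m : V,
    Γ.dist x m + Γ.dist m y = Γ.dist x y ∧ Γ.dist y m + Γ.dist m z = Γ.dist y z ∧
      Γ.dist x m + Γ.dist m z = Γ.dist x z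

/-- the least number of conjugates of relators and inverse relators with product `w` -/
noncomputable def area {A : Type} (R : Set (FreeGroup A)) (w : FreeGroup A) : ℕ :=
  sInf {k : ℕ | ∃ L : List (FreeGroup A × FreeGroup A), L.length = k ∧
    (∀ p ∈ L, p.2 ∈ R ∨ p.2⁻¹ ∈ R) ∧ (L.map (fun p => p.1 * p.2 * p.1⁻¹)).prod = w}

/-- the Dehn function: the largest area of a null-homotopic word of length at most `x` -/
noncomputable def dehn {A : Type} [DecidableEq A] (R : Set (FreeGroup A)) (x : ℝ) : ℝ :=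
  (sSup {k : ℕ | ∃ w ∈ Subgroup.normalClosure R, (w.norm : ℝ) ≤ x ∧ area R w = k} : ℕ)

/-- the usual preorder on functions on the half line -/
def Prec (f g : ℝ → ℝ) : Prop :=
  ∃ C : ℝ, 0 < C ∧ ∀ x : ℝ, 0 ≤ x → f x ≤ C * g (C * x + C) + C * x + C

theorem exists_list {A : Type} (R : Set (FreeGroup A)) (w : FreeGroup A)
    (hw : w ∈ Subgroup.normalClosure R) : ∃ L : List (FreeGroup A × FreeGroup A),
    (∀ p ∈ L, p.2 ∈ R ∨ p.2⁻¹ ∈ R) ∧ (L.map (fun p => p.1 * p.2 * p.1⁻¹)).prod = w := by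
  induction hw using Subgroup.closure_induction with
  | mem x hx =>
    obtain ⟨a, ha, hc⟩ := Group.mem_conjugatesOfSet_iff.1 hx
    obtain ⟨c, rfl⟩ := isConj_iff.1 hc
    exact ⟨[(c, a)], by simp [ha], by simp⟩
  | one => exact ⟨[], by simp, by simp⟩
  | mul x y _ _ hx hy =>
    obtain ⟨L, h1, rfl⟩ := hx
    obtain ⟨M, h2, rfl⟩ := hy
    refine ⟨L ++ M, fun p hp => ?_, by simp⟩
    rcases List.mem_append.1 hp with h | h
    · exact h1 p h
    · exact h2 p h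
  | inv x _ hx =>
    obtain ⟨L, h1, rfl⟩ := hx
    refine ⟨(L.map (fun p => (p.1, p.2⁻¹))).reverse, fun p hp => ?_, ?_⟩
    · obtain ⟨q, hq, rfl⟩ := List.mem_map.1 (List.mem_reverse.1 hp)
      simpa [or_comm] using h1 q hq
    · rw [List.prod_inv_reverse, List.map_reverse, List.map_map, List.map_map]
      congr 2
      apply List.map_congr_left
      intro p _
      simp [mul_assoc]

theorem area_le_dehn {A : Type} [Finite A] [DecidableEq A] (R : Set (FreeGroup A))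
    (w : FreeGroup A) (hw : w ∈ Subgroup.normalClosure R) (x : ℝ) (hx : (w.norm : ℝ) ≤ x) :
    (area R w : ℝ) ≤ dehn R x := by
  unfold dehn
  refine Nat.cast_le.2 (le_csSup (Set.Finite.bddAbove ?_) ⟨w, hw, hx, rfl⟩)
  have h1 : {v : FreeGroup A | v.norm ≤ ⌊x⌋₊}.Finite := by
    refine Set.Finite.of_finite_image (f := FreeGroup.toWord) ?_
      FreeGroup.toWord_injective.injOn
    refine (List.finite_length_le (A × Bool) ⌊x⌋₊).subset ?_
    rintro _ ⟨v, hv, rfl⟩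
    exact hv
  refine (h1.image (area R)).subset ?_
  rintro _ ⟨v, -, hv, rfl⟩
  exact ⟨v, Nat.le_floor hv, rfl⟩

open Pool.Agent.Lib.MP_67573e_al in
theorem wF_mem (n : ℕ) : wF n ∈ Subgroup.normalClosure R0 := by
  rw [← phi0_ker, MonoidHom.mem_ker, phi0, MonoidHom.comp_apply, mk_eq_ext, ext_wF,
    (pG_comm (vv_mem n)).eq]
  simp

open Pool.Agent.Lib.MP_67573e_al in
theorem area_wF (n : ℕ) : gr ^ Int.fib (n - 1) ≤ 2 * (area R0 (wF n) : ℝ) := by
  obtain ⟨L0, a, b⟩ := exists_list R0 _ (wF_mem n)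
  obtain ⟨L, h0, h1, h2⟩ : area R0 (wF n) ∈ {k : ℕ | ∃ L : List (FreeGroup X × FreeGroup X),
      L.length = k ∧ (∀ p ∈ L, p.2 ∈ R0 ∨ p.2⁻¹ ∈ R0) ∧
      (L.map (fun p => p.1 * p.2 * p.1⁻¹)).prod = wF n} := Nat.sInf_mem ⟨_, L0, rfl, a, b⟩
  obtain ⟨t, ht, e⟩ := area_abstract (ext alpha Pp) Lam ext_comm R0 2 ext_rel L h1
  rw [h2, ext_wF, alpha_vv, Pp_Tr] at e
  rw [← Lam_inj e, h0] at ht
  exact (le_abs_self _).trans ht

theorem two_pow_le_fib (k : ℕ) : 2 ^ k ≤ Nat.fib (2 * k + 1) := by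
  induction k with
  | zero => simp
  | succ k ih =>
    have h1 : Nat.fib (2 * (k + 1) + 1) = Nat.fib (2 * k + 1) + Nat.fib (2 * k + 1 + 1) :=
      Nat.fib_add_two
    have h2 : Nat.fib (2 * k + 1) ≤ Nat.fib (2 * k + 1 + 1) := Nat.fib_le_fib_succ
    rw [pow_succ]
    omega

open Pool.Agent.Lib.MP_67573e_al in
theorem lower [DecidableEq X] (x : ℝ) (hx : 0 ≤ x) :
    Real.exp (Real.exp x) ≤ 2 * dehn R0 (88 * x + 88) := by
  have := fin_E2
  obtain ⟨j, hj⟩ : ∃ j, j = ⌈x⌉₊ := ⟨_, rfl⟩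
  have j1 : x ≤ j := hj ▸ Nat.le_ceil x
  have j2 : (j : ℝ) < x + 1 := hj ▸ Nat.ceil_lt_add_one hx
  have h1 := area_wF (2 * (2 * j + 2) + 2)
  have e : ((2 * (2 * j + 2) + 2 : ℕ) : ℤ) - 1 = ((2 * (2 * j + 2) + 1 : ℕ) : ℤ) := by
    push_cast; ring
  rw [e, Int.fib_natCast, zpow_natCast] at h1
  have h2 : ((wF (2 * (2 * j + 2) + 2)).norm : ℝ) ≤ 88 * x + 88 := by
    have h : ((wF (2 * (2 * j + 2) + 2)).norm : ℝ) ≤ ((8 * (2 * (2 * j + 2) + 2) + 8 : ℕ) : ℝ) :=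
      Nat.cast_le.2 (norm_wF _)
    push_cast at h
    linarith
  have h3 := area_le_dehn R0 _ (wF_mem _) _ h2
  have e4 : Real.exp 1 ≤ 4 := by linarith [Real.exp_one_lt_d9]
  have h4 : Real.exp x ≤ ((4 ^ j : ℕ) : ℝ) := by
    calc Real.exp x ≤ Real.exp (j * 1) := Real.exp_le_exp.2 (by linarith)
      _ = Real.exp 1 ^ j := Real.exp_nat_mul 1 j
      _ ≤ 4 ^ j := pow_le_pow_left₀ (Real.exp_pos 1).le e4 j
      _ = _ := by push_cast; rfl
  have g4 : Real.exp 1 ≤ gr ^ 4 := by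
    have a : (2 : ℝ) < gr ^ 2 := by rw [gr_sq]; linarith [gr_one]
    nlinarith
  have h5 : 4 * 4 ^ j ≤ Nat.fib (2 * (2 * j + 2) + 1) := by
    refine le_trans (le_of_eq ?_) (two_pow_le_fib _)
    rw [pow_add, pow_mul]
    ring
  have h6 : Real.exp (Real.exp x) ≤ gr ^ Nat.fib (2 * (2 * j + 2) + 1) := by
    calc Real.exp (Real.exp x) ≤ Real.exp (((4 ^ j : ℕ) : ℝ) * 1) :=
          Real.exp_le_exp.2 (by linarith)
      _ = Real.exp 1 ^ (4 ^ j) := Real.exp_nat_mul 1 _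
      _ ≤ (gr ^ 4) ^ (4 ^ j) := pow_le_pow_left₀ (Real.exp_pos 1).le g4 _
      _ = gr ^ (4 * 4 ^ j) := by rw [← pow_mul]
      _ ≤ _ := pow_le_pow_right₀ gr_one.le h5
  linarith

theorem not_prec (d : ℝ → ℝ) (h : ∀ x, 0 ≤ x → Real.exp (Real.exp x) ≤ 2 * d (88 * x + 88)) :
    ¬ Prec d Real.exp := by
  rintro ⟨C, hC, H⟩
  obtain ⟨x, hx⟩ : ∃ x : ℝ, x = 400 * C + 10 := ⟨_, rfl⟩
  have x0 : 0 ≤ x := by linarith
  obtain ⟨y, hy⟩ : ∃ y : ℝ, y = C * (88 * x + 88) + C := ⟨_, rfl⟩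
  have h1 := H (88 * x + 88) (by linarith)
  rw [add_assoc, ← hy] at h1
  have h2 := h x x0
  have h3 : y + 1 ≤ Real.exp y := Real.add_one_le_exp y
  have h4 : 2 * C + 2 + 1 ≤ Real.exp (2 * C + 2) := Real.add_one_le_exp _
  have h5 : Real.exp (Real.exp x) ≤ Real.exp (2 * C + 2 + y) := by
    rw [Real.exp_add]
    nlinarith [Real.exp_pos y]
  have h6 := Real.exp_le_exp.1 h5
  have h7 := Real.quadratic_le_exp_of_nonneg x0
  nlinarith

open Pool.Agent.Lib.MP_67573e_al in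
theorem result :
    ∃ (G : Type) (_ : Group G) (V : Type) (_ : MulAction G V) (Γ : SimpleGraph V),
      IsMedianGraph Γ ∧ (∀ v : V, (Γ.neighborSet v).Finite) ∧
      (∀ (g : G) (u v : V), Γ.Adj u v → Γ.Adj (g • u) (g • v)) ∧
      (∀ u v : V, ∃! g : G, g • u = v) ∧
      ∃ (H : Subgroup G) (A : Type) (_ : Finite A) (_ : DecidableEq A) (R : Set (FreeGroup A)),
        R.Finite ∧ Nonempty (PresentedGroup R ≃* H) ∧
        Prec (fun x => Real.exp (Real.exp x)) (dehn R) ∧ ¬ Prec (dehn R) Real.exp := by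
  classical
  have := fin_E2
  refine ⟨PA.Grp, inferInstance, PA.Grp, inferInstance, PA.cayley,
    ⟨PA.cayley_connected, PA.cayley_median⟩, PA.cayley_finite, ?_, ?_, Phi.range, X,
    inferInstance, inferInstance, R0, R0_finite, ⟨MonoidHom.ofInjective Phi_injective⟩,
    ⟨88, by norm_num, fun x hx => ?_⟩, not_prec _ lower⟩
  · rintro g u v ⟨x, rfl⟩
    exact ⟨x, by simp [mul_assoc]⟩
  · intro u v
    refine ⟨v * u⁻¹, by simp, fun g hg => ?_⟩
    rw [← hg]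
    simp
  · have h1 := lower x hx
    have h2 : 0 ≤ dehn R0 (88 * x + 88) := Nat.cast_nonneg _
    show Real.exp (Real.exp x) ≤ _
    linarith

end Pool.Agent.Results.MP_67573e_al.DoublyExp
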